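import Mathlib

/-!
# The grammic monoid `G_n` is not finitely presented for `n ≥ 5`

For `a = j + 3 ≥ 3` consider the two words (row readings of tableaux)

  `u_j = 4 3555 2244 5^j 1^a 2`,   `v_j = 5 4455 2234 5^j 1^a 2`

over `{1, …, 5}`. They are grammic equivalent. For a word `w` in their class let `L(w)` say that
`w = 4 w'` with `φ(w')_{3,4} = 3` (the letter `3` precedes the second `4`), and let `R(w)` say that
`w = w' 2` with `φ(w')_{2,3} = 3` (the letter `3` follows the second `2`). The combinatorial heart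
is that for every word in the class exactly one of `L(w)`, `R(w)` holds. Replacing a proper factor
of `w` by a grammic equivalent word keeps either the first letter and the class of the rest (so it
preserves `L`) or the last letter and the class of the rest (so it preserves `R`). Hence `L` is
invariant under all relations of length smaller than the length `2a + 7` of `w`, but `L(u_j)` holds
and `L(v_j)` does not. So `u_j = v_j` does not follow from shorter relations, for any `j`.

In the Lean code the letters `1, …, 5` are represented by `0, …, 4`.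
-/

set_option autoImplicit false

namespace Pool.Agent.Results.MP_be768e_al.NotFinitelyPresented

/-- `phi w p q` is the largest length of a weakly increasing scattered subsequence of the word `w`
all of whose letters lie in the interval `[p, q]`. -/
noncomputable def phi {α : Type*} [LinearOrder α] (w : List α) (p q : α) : ℕ :=
  sSup {k : ℕ | ∃ s : List α, s.Sublist w ∧ s.Pairwise (· ≤ ·) ∧ (∀ x ∈ s, p ≤ x ∧ x ≤ q) ∧
    s.length = k}

section basic

variable {α : Type*} [LinearOrder α]

lemma le_phi {w s : List α} {p q : α} (h1 : s.Sublist w) (h2 : s.Pairwise (· ≤ ·))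
    (h3 : ∀ x ∈ s, p ≤ x ∧ x ≤ q) : s.length ≤ phi w p q :=
  le_csSup ⟨w.length, by rintro k ⟨s, h, _, _, rfl⟩; exact h.length_le⟩ ⟨s, h1, h2, h3, rfl⟩

lemma exists_phi (w : List α) (p q : α) : ∃ s : List α, s.Sublist w ∧ s.Pairwise (· ≤ ·) ∧
    (∀ x ∈ s, p ≤ x ∧ x ≤ q) ∧ s.length = phi w p q :=
  Nat.sSup_mem (s := {k : ℕ | ∃ s : List α, s.Sublist w ∧ s.Pairwise (· ≤ ·) ∧
    (∀ x ∈ s, p ≤ x ∧ x ≤ q) ∧ s.length = k})
    ⟨0, [], List.nil_sublist _, List.Pairwise.nil, by simp, rfl⟩
    ⟨w.length, by rintro k ⟨s, h, _, _, rfl⟩; exact h.length_le⟩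

lemma phi_nil (p q : α) : phi ([] : List α) p q = 0 := by
  obtain ⟨s, h1, -, -, h4⟩ := exists_phi ([] : List α) p q
  rw [← h4, List.eq_nil_of_sublist_nil h1]; rfl

lemma phi_of_lt (w : List α) {p q : α} (h : q < p) : phi w p q = 0 := by
  obtain ⟨s, h1, -, h3, h4⟩ := exists_phi w p q
  rw [← h4, List.length_eq_zero_iff]
  rcases s with _ | ⟨x, s⟩
  · rfl
  · have := h3 x (by simp)
    exact absurd (this.1.trans this.2) (not_le.mpr h)

lemma phi_cons (x : α) (w : List α) (p q : α) :
    phi (x :: w) p q = if p ≤ x ∧ x ≤ q then max (phi w p q) (phi w x q + 1) else phi w p q := by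
  apply le_antisymm
  · obtain ⟨s, h1, h2, h3, h4⟩ := exists_phi (x :: w) p q
    rw [← h4]
    rcases List.sublist_cons_iff.mp h1 with h | ⟨r, rfl, h⟩
    · have := le_phi h h2 h3
      split_ifs
      · exact this.trans (le_max_left _ _)
      · exact this
    · rw [if_pos (h3 x (by simp))]
      rw [List.pairwise_cons] at h2
      have := le_phi (p := x) (q := q) h h2.2
        (fun y hy => ⟨h2.1 y hy, (h3 y (List.mem_cons_of_mem _ hy)).2⟩)
      simp only [List.length_cons]
      exact (Nat.succ_le_succ this).trans (le_max_right _ _)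
  · have key : phi w p q ≤ phi (x :: w) p q := by
      obtain ⟨s, h1, h2, h3, h4⟩ := exists_phi w p q
      rw [← h4]
      exact le_phi (h1.cons x) h2 h3
    split_ifs with h
    · refine max_le key ?_
      obtain ⟨s, h1, h2, h3, h4⟩ := exists_phi w x q
      rw [← h4]
      have := le_phi (p := p) (q := q) (h1.cons_cons x)
        (List.pairwise_cons.mpr ⟨fun y hy => (h3 y hy).1, h2⟩)
        (by
          intro y hy
          rcases List.mem_cons.mp hy with rfl | hy
          · exact h
          · exact ⟨h.1.trans (h3 y hy).1, (h3 y hy).2⟩)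
      simpa using this
    · exact key

lemma phi_append_le {u u' v v' : List α} (hu : ∀ p q, phi u p q ≤ phi u' p q)
    (hv : ∀ p q, phi v p q ≤ phi v' p q) (p q : α) :
    phi (u ++ v) p q ≤ phi (u' ++ v') p q := by
  obtain ⟨s, h1, h2, h3, h4⟩ := exists_phi (u ++ v) p q
  rw [← h4]
  obtain ⟨s1, s2, rfl, hs1, hs2⟩ := List.sublist_append_iff.mp h1
  rw [List.pairwise_append] at h2
  obtain ⟨h21, h22, h23⟩ := h2
  -- the cut letter
  rcases List.eq_nil_or_concat' s1 with rfl | ⟨t, r, rfl⟩
  · obtain ⟨t2, k1, k2, k3, k4⟩ := exists_phi v' p q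
    have e1 := le_phi hs2 h22 (fun x hx => h3 x (by simp [hx]))
    have e2 := hv p q
    have e3 := le_phi (p := p) (q := q) (k1.trans (List.sublist_append_right u' v')) k2 k3
    simp only [List.nil_append]
    omega
  · have hr := h3 r (by simp)
    have e1 : (t ++ [r]).length ≤ phi u p r := by
      apply le_phi hs1 h21
      intro x hx
      refine ⟨(h3 x (by simp only [List.mem_append] at hx ⊢; exact Or.inl hx)).1, ?_⟩
      rcases List.mem_append.mp hx with hx | hx
      · exact (List.pairwise_append.mp h21).2.2 x hx r (by simp)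
      · simp at hx; exact hx.le
    have e2 : s2.length ≤ phi v r q := by
      apply le_phi hs2 h22
      intro x hx
      exact ⟨h23 r (by simp) x hx, (h3 x (by simp [hx])).2⟩
    obtain ⟨t1, k1, k2, k3, k4⟩ := exists_phi u' p r
    obtain ⟨t2, l1, l2, l3, l4⟩ := exists_phi v' r q
    have e3 : (t1 ++ t2).length ≤ phi (u' ++ v') p q := by
      apply le_phi (k1.append l1)
      · rw [List.pairwise_append]
        exact ⟨k2, l2, fun x hx y hy => (k3 x hx).2.trans (l3 y hy).1⟩
      · intro x hx
        rcases List.mem_append.mp hx with hx | hx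
        · exact ⟨(k3 x hx).1, (k3 x hx).2.trans hr.2⟩
        · exact ⟨hr.1.trans (l3 x hx).1, (l3 x hx).2⟩
    have e4 := hu p r
    have e5 := hv r q
    rw [List.length_append] at e3 ⊢
    omega

lemma phi_append_congr {u u' v v' : List α} (hu : ∀ p q, phi u p q = phi u' p q)
    (hv : ∀ p q, phi v p q = phi v' p q) (p q : α) :
    phi (u ++ v) p q = phi (u' ++ v') p q :=
  le_antisymm (phi_append_le (fun p q => (hu p q).le) (fun p q => (hv p q).le) p q)
    (phi_append_le (fun p q => (hu p q).ge) (fun p q => (hv p q).ge) p q)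

lemma phi_map {β : Type*} [LinearOrder β] (f : α → β) (hf : StrictMono f) (w : List α) (p q : α) :
    phi (w.map f) (f p) (f q) = phi w p q := by
  apply le_antisymm
  · obtain ⟨s, h1, h2, h3, h4⟩ := exists_phi (w.map f) (f p) (f q)
    obtain ⟨t, ht, rfl⟩ := List.sublist_map_iff.mp h1
    rw [← h4, List.length_map]
    apply le_phi ht
    · rw [List.pairwise_map] at h2
      exact h2.imp (fun h => hf.le_iff_le.mp h)
    · intro x hx
      have := h3 (f x) (List.mem_map_of_mem hx)
      exact ⟨hf.le_iff_le.mp this.1, hf.le_iff_le.mp this.2⟩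
  · obtain ⟨s, h1, h2, h3, h4⟩ := exists_phi w p q
    rw [← h4, ← List.length_map f]
    apply le_phi (h1.map f)
    · rw [List.pairwise_map]
      exact h2.imp (fun h => hf.le_iff_le.mpr h)
    · intro y hy
      obtain ⟨x, hx, rfl⟩ := List.mem_map.mp hy
      exact ⟨hf.le_iff_le.mpr (h3 x hx).1, hf.le_iff_le.mpr (h3 x hx).2⟩

lemma phi_self (w : List α) (x : α) : phi w x x = w.count x := by
  apply le_antisymm
  · obtain ⟨s, h1, h2, h3, h4⟩ := exists_phi w x x
    rw [← h4, ← List.replicate_sublist_iff]
    have : s = List.replicate s.length x := by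
      rw [List.eq_replicate_iff]
      exact ⟨rfl, fun y hy => le_antisymm (h3 y hy).2 (h3 y hy).1⟩
    rw [← this]; exact h1
  · have := le_phi (p := x) (q := x)
      (List.replicate_sublist_iff.mpr (le_refl (w.count x)))
      (List.pairwise_replicate_of_refl) (by
        intro y hy
        rw [List.mem_replicate] at hy
        rw [hy.2]; exact ⟨le_rfl, le_rfl⟩)
    simpa using this

lemma phi_mono_left (w : List α) {p p' q : α} (h : p ≤ p') : phi w p' q ≤ phi w p q := by
  obtain ⟨s, h1, h2, h3, h4⟩ := exists_phi w p' q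
  rw [← h4]
  exact le_phi h1 h2 (fun x hx => ⟨h.trans (h3 x hx).1, (h3 x hx).2⟩)

lemma phi_mono_right (w : List α) {p q q' : α} (h : q ≤ q') : phi w p q ≤ phi w p q' := by
  obtain ⟨s, h1, h2, h3, h4⟩ := exists_phi w p q
  rw [← h4]
  exact le_phi h1 h2 (fun x hx => ⟨(h3 x hx).1, (h3 x hx).2.trans h⟩)

lemma phi_replicate_append (k : ℕ) (x : α) (S : List α) (p q : α) :
    phi (List.replicate k x ++ S) p q =
      if p ≤ x ∧ x ≤ q then max (phi S p q) (phi S x q + k) else phi S p q := by
  induction k generalizing p with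
  | zero =>
    split_ifs with h
    · simp [max_eq_left (phi_mono_left S h.1)]
    · simp
  | succ k ih =>
    rw [List.replicate_succ, List.cons_append, phi_cons]
    split_ifs with h
    · rw [ih p, ih x, if_pos h, if_pos ⟨le_rfl, h.2⟩]
      omega
    · rw [ih p, if_neg h]

end basic

/-- common suffix -/
def suf (j : ℕ) : List ℕ := List.replicate j 4 ++ (List.replicate (j + 3) 0 ++ [1])

/-- the word `4 3555 2244 5^j 1^(j+3) 2` (letters shifted by one) -/
def wU (j : ℕ) : List ℕ := 3 :: 2 :: 4 :: 4 :: 4 :: 1 :: 1 :: 3 :: 3 :: suf j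

/-- the word `5 4455 2234 5^j 1^(j+3) 2` (letters shifted by one) -/
def wV (j : ℕ) : List ℕ := 4 :: 3 :: 3 :: 4 :: 4 :: 1 :: 1 :: 2 :: 3 :: suf j

lemma phi_suf (j p q : ℕ) : phi (suf j) p q =
    if p ≤ 4 ∧ 4 ≤ q then max (phi (List.replicate (j + 3) 0 ++ [1]) p q) j
    else phi (List.replicate (j + 3) 0 ++ [1]) p q := by
  rw [suf, phi_replicate_append]
  split_ifs with h
  · congr 1
    rw [phi_replicate_append, if_neg (by omega), phi_cons, if_neg (by omega), phi_nil, zero_add]
  · rfl

lemma phi_suf2 (k p q : ℕ) : phi (List.replicate k 0 ++ [1]) p q =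
    (if p = 0 then k else 0) + (if p ≤ 1 ∧ 1 ≤ q then 1 else 0) := by
  rw [phi_replicate_append]
  simp only [phi_cons, phi_nil]
  rcases Nat.eq_zero_or_pos p with rfl | hp
  · simp; split_ifs <;> omega
  · rw [if_neg (by omega)]; simp [hp.ne']

lemma eval (j p q : ℕ) (hp : p ≤ 4) (hq : q ≤ 4) : phi (wU j) p q = phi (wV j) p q := by
  interval_cases q <;> interval_cases p <;>
    simp [wU, wV, phi_cons, phi_suf, phi_suf2]

lemma two_letters {x y : ℕ} (hxy : x < y) (s : List ℕ) (hs : s.Pairwise (· ≤ ·))
    (h : ∀ z ∈ s, z = x ∨ z = y) : ∃ a b, s = List.replicate a x ++ List.replicate b y := by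
  induction s with
  | nil => exact ⟨0, 0, by simp⟩
  | cons z s ih =>
    rw [List.pairwise_cons] at hs
    rcases h z (by simp) with rfl | rfl
    · obtain ⟨a, b, hab⟩ := ih hs.2 (fun w hw => h w (by simp [hw]))
      exact ⟨a + 1, b, by rw [hab, List.replicate_succ, List.cons_append]⟩
    · refine ⟨0, s.length + 1, ?_⟩
      rw [List.replicate_zero, List.nil_append, List.replicate_succ]
      congr 1
      rw [List.eq_replicate_iff]
      refine ⟨rfl, fun w hw => ?_⟩
      have h1 := hs.1 w hw
      rcases h w (by simp [hw]) with h2 | h2 <;> omega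

lemma three_letters {x y z : ℕ} (hxy : x < y) (hyz : y < z) (s : List ℕ)
    (hs : s.Pairwise (· ≤ ·)) (h : ∀ w ∈ s, w = x ∨ w = y ∨ w = z) :
    ∃ a b c, s = List.replicate a x ++ (List.replicate b y ++ List.replicate c z) := by
  induction s with
  | nil => exact ⟨0, 0, 0, by simp⟩
  | cons v s ih =>
    rw [List.pairwise_cons] at hs
    by_cases hv : v = x
    · subst hv
      obtain ⟨a, b, c, habc⟩ := ih hs.2 (fun w hw => h w (by simp [hw]))
      exact ⟨a + 1, b, c, by rw [habc, List.replicate_succ, List.cons_append]⟩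
    · obtain ⟨b, c, hbc⟩ := two_letters hyz (v :: s) (List.pairwise_cons.mpr hs) (by
        intro w hw
        rcases List.mem_cons.mp hw with rfl | hw
        · rcases h w (by simp) with h2 | h2
          · exact absurd h2 hv
          · exact h2
        · have h1 := hs.1 w hw
          have h2 := h v (by simp)
          have h3 := h w (by simp [hw])
          omega)
      exact ⟨0, b, c, by simpa using hbc⟩

/-- The words in the class of `wU j`, `m = j + 3`. -/
structure InClass (m : ℕ) (W : List ℕ) : Prop where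
  f00 : phi W 0 0 = m
  f01 : phi W 0 1 = m + 1
  f04 : phi W 0 4 = m + 1
  f34 : phi W 3 4 = m + 1
  f44 : phi W 4 4 = m
  f13 : phi W 1 3 = 4
  f12 : phi W 1 2 = 3
  f23 : phi W 2 3 = 3
  f11 : phi W 1 1 = 3
  f22 : phi W 2 2 = 1
  f33 : phi W 3 3 = 3
  small : ∀ x ∈ W, x ≤ 4

/-- the invariant read off at the left end -/
def Lp (W : List ℕ) : Prop := ∃ W', W = 3 :: W' ∧ phi W' 2 3 = 3

/-- the invariant read off at the right end -/
def Rp (W : List ℕ) : Prop := ∃ W', W = W' ++ [1] ∧ phi W' 1 2 = 3

lemma InClass.splitA {m : ℕ} {W : List ℕ} (h : InClass m W) :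
    ∃ t P Q, t ≤ 2 ∧ t ≤ m ∧ W = P ++ Q ∧ (List.replicate (m - t) 0).Sublist P ∧
      (List.replicate (t + 1) 1).Sublist Q := by
  obtain ⟨s, h1, h2, h3, h4⟩ := exists_phi W 0 1
  obtain ⟨a, b, rfl⟩ := two_letters (x := 0) (y := 1) (by norm_num) s h2
    (fun z hz => by have := h3 z hz; omega)
  rw [h.f01] at h4
  simp only [List.length_append, List.length_replicate] at h4
  have ha : a ≤ m := by
    have := h.f00
    rw [phi_self] at this
    rw [← this, ← List.replicate_sublist_iff]
    exact (List.sublist_append_left _ _).trans h1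
  have hb : b ≤ 3 := by
    have := h.f11
    rw [phi_self] at this
    rw [← this, ← List.replicate_sublist_iff]
    exact (List.sublist_append_right _ _).trans h1
  obtain ⟨P, Q, hPQ, hP, hQ⟩ := List.append_sublist_iff.mp h1
  refine ⟨b - 1, P, Q, by omega, by omega, hPQ, ?_, ?_⟩
  · have : m - (b - 1) = a := by omega
    rw [this]; exact hP
  · have : b - 1 + 1 = b := by omega
    rw [this]; exact hQ

lemma InClass.splitB {m : ℕ} {W : List ℕ} (h : InClass m W) :
    ∃ t P Q, t ≤ 2 ∧ t ≤ m ∧ W = P ++ Q ∧ (List.replicate (t + 1) 3).Sublist P ∧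
      (List.replicate (m - t) 4).Sublist Q := by
  obtain ⟨s, h1, h2, h3, h4⟩ := exists_phi W 3 4
  obtain ⟨a, b, rfl⟩ := two_letters (x := 3) (y := 4) (by norm_num) s h2
    (fun z hz => by have := h3 z hz; omega)
  rw [h.f34] at h4
  simp only [List.length_append, List.length_replicate] at h4
  have ha : a ≤ 3 := by
    have := h.f33
    rw [phi_self] at this
    rw [← this, ← List.replicate_sublist_iff]
    exact (List.sublist_append_left _ _).trans h1
  have hb : b ≤ m := by
    have := h.f44
    rw [phi_self] at this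
    rw [← this, ← List.replicate_sublist_iff]
    exact (List.sublist_append_right _ _).trans h1
  obtain ⟨P, Q, hPQ, hP, hQ⟩ := List.append_sublist_iff.mp h1
  refine ⟨a - 1, P, Q, by omega, by omega, hPQ, ?_, ?_⟩
  · have : a - 1 + 1 = a := by omega
    rw [this]; exact hP
  · have : m - (a - 1) = b := by omega
    rw [this]; exact hQ

lemma InClass.boundA {m : ℕ} {W : List ℕ} (h : InClass m W) {t : ℕ} {P Q : List ℕ} (ht : t ≤ m)
    (hW : W = P ++ Q) (hP : (List.replicate (m - t) 0).Sublist P) {c : List ℕ}
    (hc : c.Sublist Q) (hc2 : c.Pairwise (· ≤ ·)) (hc3 : ∀ x ∈ c, x ≤ 4) : c.length ≤ t + 1 := by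
  have := le_phi (w := W) (s := List.replicate (m - t) 0 ++ c) (p := 0) (q := 4)
    (by rw [hW]; exact hP.append hc)
    (by
      rw [List.pairwise_append]
      refine ⟨List.pairwise_replicate_of_refl, hc2, ?_⟩
      intro x hx y _
      rw [(List.mem_replicate.mp hx).2]; exact Nat.zero_le _)
    (by
      intro x hx
      rcases List.mem_append.mp hx with hx | hx
      · rw [(List.mem_replicate.mp hx).2]; omega
      · exact ⟨Nat.zero_le _, hc3 x hx⟩)
  rw [h.f04] at this
  simp only [List.length_append, List.length_replicate] at this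
  omega

lemma InClass.boundB {m : ℕ} {W : List ℕ} (h : InClass m W) {t : ℕ} {P Q : List ℕ} (ht : t ≤ m)
    (hW : W = P ++ Q) (hQ : (List.replicate (m - t) 4).Sublist Q) {c : List ℕ}
    (hc : c.Sublist P) (hc2 : c.Pairwise (· ≤ ·)) (hc3 : ∀ x ∈ c, x ≤ 4) : c.length ≤ t + 1 := by
  have := le_phi (w := W) (s := c ++ List.replicate (m - t) 4) (p := 0) (q := 4)
    (by rw [hW]; exact hc.append hQ)
    (by
      rw [List.pairwise_append]
      refine ⟨hc2, List.pairwise_replicate_of_refl, ?_⟩
      intro x hx y hy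
      rw [(List.mem_replicate.mp hy).2]; exact hc3 x hx)
    (by
      intro x hx
      rcases List.mem_append.mp hx with hx | hx
      · exact ⟨Nat.zero_le _, hc3 x hx⟩
      · rw [(List.mem_replicate.mp hx).2]; omega)
  rw [h.f04] at this
  simp only [List.length_append, List.length_replicate] at this
  omega

lemma InClass.count1 {m : ℕ} {W : List ℕ} (h : InClass m W) : W.count 1 = 3 := by
  rw [← phi_self]; exact h.f11

lemma InClass.count2 {m : ℕ} {W : List ℕ} (h : InClass m W) : W.count 2 = 1 := by
  rw [← phi_self]; exact h.f22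

lemma InClass.count3 {m : ℕ} {W : List ℕ} (h : InClass m W) : W.count 3 = 3 := by
  rw [← phi_self]; exact h.f33

lemma InClass.chain {m : ℕ} {W : List ℕ} (h : InClass m W) :
    ∃ i e k, i + e + k = 4 ∧ e ≤ 1 ∧ 1 ≤ i ∧ 1 ≤ k ∧
      (List.replicate i 1 ++ (List.replicate e 2 ++ List.replicate k 3)).Sublist W ∧
      (List.replicate i 1 ++ (List.replicate e 2 ++ List.replicate k 3)).Pairwise (· ≤ ·) := by
  obtain ⟨s, h1, h2, h3, h4⟩ := exists_phi W 1 3
  obtain ⟨i, e, k, rfl⟩ := three_letters (x := 1) (y := 2) (z := 3) (by norm_num) (by norm_num) s h2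
    (fun z hz => by have := h3 z hz; omega)
  rw [h.f13] at h4
  simp only [List.length_append, List.length_replicate] at h4
  refine ⟨i, e, k, by omega, ?_, ?_, ?_, h1, h2⟩
  · rw [← h.count2, ← List.replicate_sublist_iff]
    exact ((List.sublist_append_left _ _).trans (List.sublist_append_right _ _)).trans h1
  · by_contra hi
    have hi0 : i = 0 := by omega
    subst hi0
    have := le_phi (p := 2) (q := 3) h1 h2 (by
      intro x hx
      simp only [List.replicate_zero, List.nil_append, List.mem_append, List.mem_replicate] at hx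
      omega)
    rw [h.f23] at this
    simp only [List.length_append, List.length_replicate] at this
    omega
  · by_contra hk
    have hk0 : k = 0 := by omega
    subst hk0
    have := le_phi (p := 1) (q := 2) h1 h2 (by
      intro x hx
      simp only [List.replicate_zero, List.append_nil, List.mem_append, List.mem_replicate] at hx
      omega)
    rw [h.f12] at this
    simp only [List.length_append, List.length_replicate] at this
    omega

lemma InClass.boundI {m : ℕ} {W : List ℕ} (h : InClass m W) {t : ℕ} {P Q : List ℕ} (ht : t ≤ m)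
    (ht2 : t ≤ 2) (hW : W = P ++ Q) (hP : (List.replicate (m - t) 0).Sublist P)
    (hQ : (List.replicate (t + 1) 1).Sublist Q) {i e k : ℕ} (h4 : i + e + k = 4)
    (hc : (List.replicate i 1 ++ (List.replicate e 2 ++ List.replicate k 3)).Sublist W)
    (hs : (List.replicate i 1 ++ (List.replicate e 2 ++ List.replicate k 3)).Pairwise (· ≤ ·)) :
    i + t ≤ 2 := by
  by_contra hlt
  rw [hW] at hc
  obtain ⟨c1, c2, hcc, hc1, hc2⟩ := List.sublist_append_iff.mp hc
  have hs2 : c2.Pairwise (· ≤ ·) := by
    rw [hcc] at hs; exact (List.pairwise_append.mp hs).2.1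
  have hlen : c1.length + c2.length = 4 := by
    have := congrArg List.length hcc
    simp only [List.length_append, List.length_replicate] at this
    omega
  have hb := h.boundA ht hW hP hc2 hs2 (by
    intro x hx
    have : x ∈ c1 ++ c2 := by simp [hx]
    rw [← hcc] at this
    simp only [List.mem_append, List.mem_replicate] at this
    omega)
  have hpre : (List.replicate (3 - t) 1).Sublist c1 := by
    apply List.IsPrefix.sublist
    apply List.prefix_of_prefix_length_le (l₃ := c1 ++ c2)
    · rw [← hcc]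
      refine ⟨List.replicate (i - (3 - t)) 1 ++ (List.replicate e 2 ++ List.replicate k 3), ?_⟩
      rw [← List.append_assoc, List.replicate_append_replicate]
      congr 2
      omega
    · exact List.prefix_append _ _
    · rw [List.length_replicate]; omega
  have h5 : (List.replicate (3 - t) 1 ++ List.replicate (t + 1) 1).Sublist W := by
    rw [hW]; exact (hpre.trans hc1).append hQ
  rw [List.replicate_append_replicate, List.replicate_sublist_iff, h.count1] at h5
  omega

lemma InClass.boundK {m : ℕ} {W : List ℕ} (h : InClass m W) {t : ℕ} {P Q : List ℕ} (ht : t ≤ m)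
    (ht2 : t ≤ 2) (hW : W = P ++ Q) (hP : (List.replicate (t + 1) 3).Sublist P)
    (hQ : (List.replicate (m - t) 4).Sublist Q) {i e k : ℕ} (h4 : i + e + k = 4)
    (hc : (List.replicate i 1 ++ (List.replicate e 2 ++ List.replicate k 3)).Sublist W)
    (hs : (List.replicate i 1 ++ (List.replicate e 2 ++ List.replicate k 3)).Pairwise (· ≤ ·)) :
    k + t ≤ 2 := by
  by_contra hlt
  rw [hW] at hc
  obtain ⟨c1, c2, hcc, hc1, hc2⟩ := List.sublist_append_iff.mp hc
  have hs1 : c1.Pairwise (· ≤ ·) := by
    rw [hcc] at hs; exact (List.pairwise_append.mp hs).1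
  have hlen : c1.length + c2.length = 4 := by
    have := congrArg List.length hcc
    simp only [List.length_append, List.length_replicate] at this
    omega
  have hb := h.boundB ht hW hQ hc1 hs1 (by
    intro x hx
    have : x ∈ c1 ++ c2 := by simp [hx]
    rw [← hcc] at this
    simp only [List.mem_append, List.mem_replicate] at this
    omega)
  have hsuf : (List.replicate (3 - t) 3).Sublist c2 := by
    apply List.IsSuffix.sublist
    apply List.suffix_of_suffix_length_le (l₃ := c1 ++ c2)
    · rw [← hcc]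
      refine ⟨List.replicate i 1 ++ (List.replicate e 2 ++ List.replicate (k - (3 - t)) 3), ?_⟩
      rw [List.append_assoc, List.append_assoc, List.replicate_append_replicate]
      congr 3
      omega
    · exact List.suffix_append _ _
    · rw [List.length_replicate]; omega
  have h5 : (List.replicate (t + 1) 3 ++ List.replicate (3 - t) 3).Sublist W := by
    rw [hW]; exact hP.append (hsuf.trans hc2)
  rw [List.replicate_append_replicate, List.replicate_sublist_iff, h.count3] at h5
  omega

lemma InClass.lastOne {m : ℕ} {W : List ℕ} (h : InClass m W) {P Q : List ℕ}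
    (hW : W = P ++ Q) (hP : (List.replicate m 0).Sublist P)
    (hQ : (List.replicate 1 1).Sublist Q) : ∃ W', W = W' ++ [1] := by
  have hQ1 : 1 ∈ Q := hQ.subset (by simp)
  have h0 : 0 ∉ Q := by
    intro h0
    have h5 : (List.replicate m 0 ++ List.replicate 1 0).Sublist W := by
      rw [hW]
      exact hP.append (by simpa using h0)
    have := h.f00
    rw [phi_self] at this
    rw [List.replicate_append_replicate, List.replicate_sublist_iff, this] at h5
    omega
  rcases List.eq_nil_or_concat' Q with rfl | ⟨R, x, rfl⟩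
  · simp at hQ1
  · by_cases hx : x = 1
    · subst hx
      exact ⟨P ++ R, by rw [hW, List.append_assoc]⟩
    · exfalso
      have hx0 : x ≠ 0 := fun h' => h0 (by simp [h'])
      have h1R : 1 ∈ R := by
        rcases List.mem_append.mp hQ1 with h' | h'
        · exact h'
        · simp at h'; exact absurd h'.symm hx
      have hx4 : x ≤ 4 := h.small x (by rw [hW]; simp)
      have := h.boundA (t := 0) (Nat.zero_le _) hW (by simpa using hP) (c := [1] ++ [x])
        ((List.singleton_sublist.mpr h1R).append (List.Sublist.refl _))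
        (by simp; omega) (by simp; omega)
      simp at this

lemma InClass.firstThree {m : ℕ} {W : List ℕ} (h : InClass m W) {P Q : List ℕ}
    (hW : W = P ++ Q) (hP : (List.replicate 1 3).Sublist P)
    (hQ : (List.replicate m 4).Sublist Q) : ∃ W', W = 3 :: W' := by
  have hP1 : 3 ∈ P := hP.subset (by simp)
  have h0 : 4 ∉ P := by
    intro h0
    have h5 : (List.replicate 1 4 ++ List.replicate m 4).Sublist W := by
      rw [hW]
      exact List.Sublist.append (by simpa using h0) hQ
    have := h.f44
    rw [phi_self] at this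
    rw [List.replicate_append_replicate, List.replicate_sublist_iff, this] at h5
    omega
  rcases P with _ | ⟨x, R⟩
  · simp at hP1
  · by_cases hx : x = 3
    · subst hx
      exact ⟨R ++ Q, by rw [hW, List.cons_append]⟩
    · exfalso
      have hx0 : x ≠ 4 := fun h' => h0 (by simp [h'])
      have h1R : 3 ∈ R := by
        rcases List.mem_cons.mp hP1 with h' | h'
        · exact absurd h'.symm hx
        · exact h'
      have hx4 : x ≤ 4 := h.small x (by rw [hW]; simp)
      have := h.boundB (t := 0) (Nat.zero_le _) hW (by simpa using hQ) (c := [x] ++ [3])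
        (List.Sublist.append (l₁ := [x]) (l₂ := [x]) (List.Sublist.refl _)
          (List.singleton_sublist.mpr h1R))
        (by simp; omega) (by simp; omega)
      simp at this

lemma phi_sublist {α : Type*} [LinearOrder α] {w w' : List α} (h : w.Sublist w') (p q : α) :
    phi w p q ≤ phi w' p q := by
  obtain ⟨s, h1, h2, h3, h4⟩ := exists_phi w p q
  rw [← h4]
  exact le_phi (h1.trans h) h2 h3

lemma sub_init {x y : ℕ} (hxy : x ≠ y) {l v : List ℕ} (h : (l ++ [x]).Sublist (v ++ [y])) :
    (l ++ [x]).Sublist v := by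
  obtain ⟨c1, c2, hcc, hc1, hc2⟩ := List.sublist_append_iff.mp h
  rcases c2 with _ | ⟨z, c2⟩
  · rw [List.append_nil] at hcc
    rw [hcc]; exact hc1
  · exfalso
    have hlast : (l ++ [x]).getLast? = (c1 ++ (z :: c2)).getLast? := by rw [hcc]
    have h3 : z :: c2 = [y] := by
      rcases List.sublist_cons_iff.mp hc2 with h' | ⟨r, h', h''⟩
      · simp at h'
      · rw [List.sublist_nil] at h''
        rw [h', h'']
    rw [h3] at hlast
    simp at hlast
    exact hxy hlast

lemma sub_tail {x y : ℕ} (hxy : x ≠ y) {l v : List ℕ} (h : (x :: l).Sublist (y :: v)) :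
    (x :: l).Sublist v := by
  rcases List.sublist_cons_iff.mp h with h' | ⟨r, h', h''⟩
  · exact h'
  · simp only [List.cons.injEq] at h'
    exact absurd h'.1 hxy

lemma sub_before {x : ℕ} {l v1 v2 : List ℕ} (h1 : x ∉ v1) (h2 : x ∉ v2)
    (h : (l ++ [x]).Sublist (v1 ++ x :: v2)) : l.Sublist v1 := by
  obtain ⟨c1, c2, hcc, hc1, hc2⟩ := List.sublist_append_iff.mp h
  rcases List.eq_nil_or_concat' c2 with rfl | ⟨c, z, rfl⟩
  · exfalso
    rw [List.append_nil] at hcc
    exact h1 (hc1.subset (by rw [← hcc]; simp))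
  · rw [← List.append_assoc] at hcc
    obtain ⟨h3, h4⟩ := List.append_inj' hcc rfl
    simp only [List.cons.injEq, and_true] at h4
    subst h4
    rcases List.sublist_cons_iff.mp hc2 with h' | ⟨r, h', h''⟩
    · exact absurd (h'.subset (by simp)) h2
    · rcases c with _ | ⟨y, c⟩
      · rw [h3, List.append_nil]; exact hc1
      · exfalso
        simp only [List.cons_append, List.cons.injEq] at h'
        exact h2 (h''.subset (by rw [← h'.2]; simp))

lemma sub_after {x : ℕ} {l v1 v2 : List ℕ} (h1 : x ∉ v1) (h2 : x ∉ v2)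
    (h : (x :: l).Sublist (v1 ++ x :: v2)) : l.Sublist v2 := by
  obtain ⟨c1, c2, hcc, hc1, hc2⟩ := List.sublist_append_iff.mp h
  rcases c1 with _ | ⟨z, c⟩
  · rw [List.nil_append] at hcc
    rw [← hcc] at hc2
    rcases List.sublist_cons_iff.mp hc2 with h' | ⟨r, h', h''⟩
    · exact absurd (h'.subset (by simp)) h2
    · simp only [List.cons.injEq, true_and] at h'
      rw [h']; exact h''
  · exfalso
    simp only [List.cons_append, List.cons.injEq] at hcc
    exact h1 (hc1.subset (by rw [← hcc.1]; simp))

/-- A word of the class beginning with `3` and ending with `1`. -/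
lemma InClass.both {m : ℕ} {W W' W'' : List ℕ} (h : InClass m W) (h1 : W = 3 :: W')
    (h2 : W = W'' ++ [1]) : ∃ v1 v2, W' = (v1 ++ 2 :: v2) ++ [1] ∧ W'' = 3 :: (v1 ++ 2 :: v2) ∧
      2 ∉ v1 ∧ 2 ∉ v2 ∧ (v1 ++ 2 :: v2).count 1 = 2 ∧ (v1 ++ 2 :: v2).count 3 = 2 := by
  rcases W'' with _ | ⟨x, v⟩
  · rw [h1] at h2; simp at h2
  · rw [h1] at h2
    simp only [List.cons_append, List.cons.injEq] at h2
    obtain ⟨h2a, h2b⟩ := h2
    have c1 := h.count1
    have c2 := h.count2
    have c3 := h.count3
    rw [h1, h2b] at c1 c2 c3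
    simp only [List.count_cons, List.count_append, List.count_nil] at c1 c2 c3
    norm_num at c1 c2 c3
    have hmem : 2 ∈ v := by
      rw [← List.count_pos_iff]; omega
    obtain ⟨v1, v2, rfl⟩ := List.append_of_mem hmem
    rw [List.count_append, List.count_cons_self] at c2
    refine ⟨v1, v2, h2b, by rw [h2a], ?_, ?_, by omega, by omega⟩
    · rw [← List.count_eq_zero]; omega
    · rw [← List.count_eq_zero]; omega

theorem InClass.key1 {m : ℕ} {W : List ℕ} (h : InClass m W) (hL : Lp W) (hR : Rp W) : False := by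
  obtain ⟨W', h1, h1'⟩ := hL
  obtain ⟨W'', h2, h2'⟩ := hR
  obtain ⟨v1, v2, e1, e2, n1, n2, c1, c3⟩ := h.both h1 h2
  have c2 : (v1 ++ 2 :: v2).count 2 = 1 := by
    rw [List.count_append, List.count_cons_self, List.count_eq_zero.mpr n1,
      List.count_eq_zero.mpr n2]
  -- the chain 2,3,3
  have s1 : [2, 3, 3].Sublist (v1 ++ 2 :: v2) := by
    obtain ⟨s, k1, k2, k3, k4⟩ := exists_phi W' 2 3
    obtain ⟨a, b, rfl⟩ := two_letters (x := 2) (y := 3) (by norm_num) s k2
      (fun z hz => by have := k3 z hz; omega)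
    rw [h1'] at k4
    simp only [List.length_append, List.length_replicate] at k4
    have ha : a ≤ 1 := by
      have := (List.sublist_append_left _ _).trans k1
      rw [List.replicate_sublist_iff, e1, List.count_append, c2] at this
      simpa using this
    have hb : b ≤ 2 := by
      have := (List.sublist_append_right _ _).trans k1
      rw [List.replicate_sublist_iff, e1, List.count_append, c3] at this
      simpa using this
    have ha1 : a = 1 := by omega
    have hb2 : b = 2 := by omega
    subst ha1 hb2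
    rw [e1] at k1
    exact sub_init (x := 3) (y := 1) (by norm_num) (l := [2, 3]) (by simpa using k1)
  have s2 : [1, 1, 2].Sublist (v1 ++ 2 :: v2) := by
    obtain ⟨s, k1, k2, k3, k4⟩ := exists_phi W'' 1 2
    obtain ⟨a, b, rfl⟩ := two_letters (x := 1) (y := 2) (by norm_num) s k2
      (fun z hz => by have := k3 z hz; omega)
    rw [h2'] at k4
    simp only [List.length_append, List.length_replicate] at k4
    have ha : a ≤ 2 := by
      have := (List.sublist_append_left _ _).trans k1
      rw [List.replicate_sublist_iff, e2, List.count_cons, c1] at this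
      simpa using this
    have hb : b ≤ 1 := by
      have := (List.sublist_append_right _ _).trans k1
      rw [List.replicate_sublist_iff, e2, List.count_cons, c2] at this
      simpa using this
    have ha1 : a = 2 := by omega
    have hb2 : b = 1 := by omega
    subst ha1 hb2
    rw [e2] at k1
    exact sub_tail (x := 1) (y := 3) (by norm_num) (l := [1, 2]) (by simpa using k1)
  have s3 : [1, 1].Sublist v1 := sub_before (l := [1, 1]) n1 n2 (by simpa using s2)
  have s4 : [3, 3].Sublist v2 := sub_after (l := [3, 3]) n1 n2 s1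
  have s5 : ([1, 1] ++ 2 :: [3, 3]).Sublist W := by
    rw [h1, e1]
    exact ((s3.append (s4.cons_cons 2)).trans (List.sublist_append_left _ _)).cons 3
  have := le_phi (p := 1) (q := 3) s5 (by simp) (by simp)
  rw [h.f13] at this
  simp at this

theorem InClass.key2 {m : ℕ} {W : List ℕ} (h : InClass m W) : Lp W ∨ Rp W := by
  obtain ⟨t, P, Q, ht2, htm, hW, hP, hQ⟩ := h.splitA
  obtain ⟨s, P', Q', hs2, hsm, hW', hP', hQ'⟩ := h.splitB
  obtain ⟨i, e, k, h4, he, hi, hk, hc, hs⟩ := h.chain
  have b1 := h.boundI htm ht2 hW hP hQ h4 hc hs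
  have b2 := h.boundK hsm hs2 hW' hP' hQ' h4 hc hs
  have uL : ∀ W', W = 3 :: W' → [2, 3, 3].Sublist W' → Lp W := by
    intro W' h1 h2
    refine ⟨W', h1, le_antisymm ?_ ?_⟩
    · have := phi_sublist (List.sublist_cons_self 3 W') 2 3
      rw [← h1, h.f23] at this
      exact this
    · exact le_phi (p := 2) (q := 3) h2 (by simp) (by simp)
  have uR : ∀ W', W = W' ++ [1] → [1, 1, 2].Sublist W' → Rp W := by
    intro W' h1 h2
    refine ⟨W', h1, le_antisymm ?_ ?_⟩
    · have := phi_sublist (List.sublist_append_left W' [1]) 1 2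
      rw [← h1, h.f12] at this
      exact this
    · exact le_phi (p := 1) (q := 2) h2 (by simp) (by simp)
  have cases : (i = 1 ∧ e = 1 ∧ k = 2 ∧ s = 0) ∨ (i = 2 ∧ e = 1 ∧ k = 1 ∧ t = 0) ∨
      (i = 2 ∧ e = 0 ∧ k = 2 ∧ s = 0 ∧ t = 0) := by omega
  rcases cases with ⟨rfl, rfl, rfl, rfl⟩ | ⟨rfl, rfl, rfl, rfl⟩ | ⟨rfl, rfl, rfl, rfl, rfl⟩
  · left
    obtain ⟨W', h1⟩ := h.firstThree hW' hP' (by simpa using hQ')
    rw [h1] at hc
    have := sub_tail (x := 1) (y := 3) (by norm_num) (l := [2, 3, 3]) (by simpa using hc)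
    exact uL W' h1 ((List.sublist_cons_self _ _).trans this)
  · right
    obtain ⟨W', h1⟩ := h.lastOne hW (by simpa using hP) hQ
    rw [h1] at hc
    have := sub_init (x := 3) (y := 1) (by norm_num) (l := [1, 1, 2]) (by simpa using hc)
    exact uR W' h1 ((List.sublist_append_left _ _).trans this)
  · obtain ⟨W', h1⟩ := h.firstThree hW' hP' (by simpa using hQ')
    obtain ⟨W'', h2⟩ := h.lastOne hW (by simpa using hP) hQ
    obtain ⟨v1, v2, e1, e2, n1, n2, -, -⟩ := h.both h1 h2
    have hv : [1, 1, 3, 3].Sublist (v1 ++ 2 :: v2) := by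
      rw [h1, e1] at hc
      have := sub_tail (x := 1) (y := 3) (by norm_num) (l := [1, 3, 3]) (by simpa using hc)
      exact sub_init (x := 3) (y := 1) (by norm_num) (l := [1, 1, 3]) (by simpa using this)
    obtain ⟨c1, c2, hcc, hc1, hc2⟩ := List.sublist_append_iff.mp hv
    have hc2' : c2.Sublist v2 := by
      rcases List.sublist_cons_iff.mp hc2 with h' | ⟨r, h', h''⟩
      · exact h'
      · exfalso
        have : (2 : ℕ) ∈ ([1, 1, 3, 3] : List ℕ) := by rw [hcc, h']; simp
        simp at this
    rcases c1 with _ | ⟨a, _ | ⟨b, c⟩⟩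
    · left
      apply uL W' h1
      simp only [List.nil_append] at hcc
      rw [← hcc] at hc2'
      rw [e1]
      have h5 : [3, 3].Sublist v2 :=
        ((List.sublist_cons_self 1 _).trans (List.sublist_cons_self 1 _)).trans hc2'
      exact (((h5.cons_cons 2).trans (List.sublist_append_right v1 _))).trans
        (List.sublist_append_left _ _)
    · left
      apply uL W' h1
      simp only [List.cons_append, List.nil_append, List.cons.injEq] at hcc
      rw [← hcc.2] at hc2'
      rw [e1]
      have h5 : [3, 3].Sublist v2 := (List.sublist_cons_self 1 _).trans hc2'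
      exact (((h5.cons_cons 2).trans (List.sublist_append_right v1 _))).trans
        (List.sublist_append_left _ _)
    · right
      apply uR W'' h2
      simp only [List.cons_append, List.cons.injEq] at hcc
      obtain ⟨rfl, rfl, -⟩ := hcc
      have h5 : [1, 1].Sublist v1 :=
        (((List.nil_sublist c).cons_cons 1).cons_cons 1).trans hc1
      rw [e2]
      have h6 : ([1, 1] ++ [2]).Sublist (v1 ++ 2 :: v2) :=
        h5.append ((List.nil_sublist v2).cons_cons 2)
      exact List.Sublist.cons 3 (by simpa using h6)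

theorem InClass.key {m : ℕ} {W : List ℕ} (h : InClass m W) : Lp W ↔ ¬ Rp W :=
  ⟨fun h1 h2 => h.key1 h1 h2, fun h1 => h.key2.resolve_right h1⟩

lemma inClass_wU (j : ℕ) : InClass (j + 3) (wU j) where
  f00 := by simp [wU, phi_cons, phi_suf, phi_suf2]
  f01 := by simp [wU, phi_cons, phi_suf, phi_suf2]
  f04 := by simp [wU, phi_cons, phi_suf, phi_suf2]; omega
  f34 := by simp [wU, phi_cons, phi_suf, phi_suf2]
  f44 := by simp [wU, phi_cons, phi_suf, phi_suf2]
  f13 := by simp [wU, phi_cons, phi_suf, phi_suf2]
  f12 := by simp [wU, phi_cons, phi_suf, phi_suf2]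
  f23 := by simp [wU, phi_cons, phi_suf, phi_suf2]
  f11 := by simp [wU, phi_cons, phi_suf, phi_suf2]
  f22 := by simp [wU, phi_cons, phi_suf, phi_suf2]
  f33 := by simp [wU, phi_cons, phi_suf, phi_suf2]
  small := by
    intro x hx
    simp only [wU, suf, List.mem_cons, List.mem_append, List.mem_replicate, List.not_mem_nil,
      or_false] at hx
    omega

lemma Lp_cons (x : ℕ) (W : List ℕ) : Lp (x :: W) ↔ x = 3 ∧ phi W 2 3 = 3 := by
  constructor
  · rintro ⟨W', h1, h2⟩
    simp only [List.cons.injEq] at h1
    obtain ⟨rfl, rfl⟩ := h1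
    exact ⟨rfl, h2⟩
  · rintro ⟨rfl, h2⟩
    exact ⟨W, rfl, h2⟩

lemma Rp_concat (x : ℕ) (W : List ℕ) : Rp (W ++ [x]) ↔ x = 1 ∧ phi W 1 2 = 3 := by
  constructor
  · rintro ⟨W', h1, h2⟩
    obtain ⟨h3, h4⟩ := List.append_inj' h1 rfl
    simp only [List.cons.injEq, and_true] at h4
    subst h3 h4
    exact ⟨rfl, h2⟩
  · rintro ⟨rfl, h2⟩
    exact ⟨W, rfl, h2⟩

lemma Lp_wU (j : ℕ) : Lp (wU j) := by
  rw [wU, Lp_cons]
  exact ⟨rfl, by simp [phi_cons, phi_suf, phi_suf2]⟩

lemma not_Lp_wV (j : ℕ) : ¬ Lp (wV j) := by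
  rw [wV, Lp_cons]
  norm_num

lemma wV_small (j : ℕ) : ∀ x ∈ wV j, x ≤ 4 := by
  intro x hx
  simp only [wV, suf, List.mem_cons, List.mem_append, List.mem_replicate, List.not_mem_nil,
      or_false] at hx
  omega

/-- The grammic congruence on the free monoid over `Fin n` (the letters `1 < 2 < ⋯ < n` being
represented by the elements `0 < 1 < ⋯ < n - 1` of `Fin n`). -/
def gram (n : ℕ) : Con (FreeMonoid (Fin n)) where
  r u v := ∀ p q : Fin n, p ≤ q →
    phi (FreeMonoid.toList u) p q = phi (FreeMonoid.toList v) p q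
  iseqv := ⟨fun _ _ _ _ => rfl, fun h p q hpq => (h p q hpq).symm,
    fun h1 h2 p q hpq => (h1 p q hpq).trans (h2 p q hpq)⟩
  mul' := by
    intro w x y z h1 h2 p q _
    have key : ∀ {a b : FreeMonoid (Fin n)}, (∀ p q : Fin n, p ≤ q →
        phi (FreeMonoid.toList a) p q = phi (FreeMonoid.toList b) p q) → ∀ p q : Fin n,
        phi (FreeMonoid.toList a) p q = phi (FreeMonoid.toList b) p q := by
      intro a b hab p q
      rcases le_or_gt p q with hpq | hpq
      · exact hab p q hpq
      · rw [phi_of_lt _ hpq, phi_of_lt _ hpq]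
    rw [FreeMonoid.toList_mul, FreeMonoid.toList_mul]
    exact phi_append_congr (key h1) (key h2) p q

/-- The underlying list of natural numbers. -/
def nat {n : ℕ} (u : FreeMonoid (Fin n)) : List ℕ := (FreeMonoid.toList u).map Fin.val

lemma nat_mul {n : ℕ} (u v : FreeMonoid (Fin n)) : nat (u * v) = nat u ++ nat v := by
  simp [nat]

lemma gram_nat {n : ℕ} {u v : FreeMonoid (Fin n)} (h : gram n u v) {p q : ℕ} (hp : p < n)
    (hq : q < n) : phi (nat u) p q = phi (nat v) p q := by
  rcases le_or_gt p q with hpq | hpq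
  · have := h (⟨p, hp⟩ : Fin n) ⟨q, hq⟩ hpq
    rw [← phi_map Fin.val Fin.val_strictMono, ← phi_map Fin.val Fin.val_strictMono] at this
    exact this
  · rw [phi_of_lt _ hpq, phi_of_lt _ hpq]

lemma gram_of_nat {n : ℕ} {u v : FreeMonoid (Fin n)}
    (h : ∀ p q : ℕ, phi (nat u) p q = phi (nat v) p q) : gram n u v := by
  intro p q _
  rw [← phi_map Fin.val Fin.val_strictMono, ← phi_map Fin.val Fin.val_strictMono]
  exact h _ _

lemma eval_all (j p q : ℕ) : phi (wU j) p q = phi (wV j) p q := by
  have hU : ∀ x ∈ wU j, x ≤ 4 := (inClass_wU j).small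
  have hV := wV_small j
  -- large `p` or `q`
  have big : ∀ (w : List ℕ), (∀ x ∈ w, x ≤ 4) → ∀ p q, 4 < p → phi w p q = 0 := by
    intro w hw p q hp
    obtain ⟨s, h1, h2, h3, h4⟩ := exists_phi w p q
    rw [← h4, List.length_eq_zero_iff]
    rcases s with _ | ⟨x, s⟩
    · rfl
    · have := hw x (h1.subset (by simp))
      have := h3 x (by simp)
      omega
  have big2 : ∀ (w : List ℕ), (∀ x ∈ w, x ≤ 4) → ∀ p q, 4 < q → phi w p q = phi w p 4 := by
    intro w hw p q hq
    apply le_antisymm
    · obtain ⟨s, h1, h2, h3, h4⟩ := exists_phi w p q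
      rw [← h4]
      exact le_phi h1 h2 (fun x hx => ⟨(h3 x hx).1, hw x (h1.subset hx)⟩)
    · exact phi_mono_right w hq.le
  rcases le_or_gt p 4 with hp | hp
  · rcases le_or_gt q 4 with hq | hq
    · exact eval j p q hp hq
    · rw [big2 _ hU p q hq, big2 _ hV p q hq]
      exact eval j p 4 hp le_rfl
  · rw [big _ hU p q hp, big _ hV p q hp]

lemma inClass_of_gram {n : ℕ} (hn : 5 ≤ n) {m : ℕ} {u v : FreeMonoid (Fin n)} (h : gram n u v)
    (hu : InClass m (nat u)) : InClass m (nat v) where
  f00 := by rw [← gram_nat h (by omega) (by omega)]; exact hu.f00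
  f01 := by rw [← gram_nat h (by omega) (by omega)]; exact hu.f01
  f04 := by rw [← gram_nat h (by omega) (by omega)]; exact hu.f04
  f34 := by rw [← gram_nat h (by omega) (by omega)]; exact hu.f34
  f44 := by rw [← gram_nat h (by omega) (by omega)]; exact hu.f44
  f13 := by rw [← gram_nat h (by omega) (by omega)]; exact hu.f13
  f12 := by rw [← gram_nat h (by omega) (by omega)]; exact hu.f12
  f23 := by rw [← gram_nat h (by omega) (by omega)]; exact hu.f23
  f11 := by rw [← gram_nat h (by omega) (by omega)]; exact hu.f11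
  f22 := by rw [← gram_nat h (by omega) (by omega)]; exact hu.f22
  f33 := by rw [← gram_nat h (by omega) (by omega)]; exact hu.f33
  small := by
    intro x hx
    have hxn : x < n := by
      rw [nat, List.mem_map] at hx
      obtain ⟨y, -, rfl⟩ := hx
      exact y.2
    apply hu.small x
    rw [← List.count_pos_iff, ← phi_self, gram_nat h hxn hxn, phi_self, List.count_pos_iff]
    exact hx

/-- Words of bounded length do not detect the invariant `Lp`: the congruence of pairs of
grammic equivalent words which agree on `Lp` as soon as they are in the class. -/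
def rho (n m : ℕ) (hn : 5 ≤ n) : Con (FreeMonoid (Fin n)) where
  r u v := gram n u v ∧ (InClass m (nat u) → (Lp (nat u) ↔ Lp (nat v)))
  iseqv := by
    refine ⟨fun u => ⟨(gram n).refl u, fun _ => Iff.rfl⟩, ?_, ?_⟩
    · rintro u v ⟨h1, h2⟩
      exact ⟨(gram n).symm h1, fun h => (h2 (inClass_of_gram hn ((gram n).symm h1) h)).symm⟩
    · rintro u v w ⟨h1, h2⟩ ⟨h3, h4⟩
      exact ⟨(gram n).trans h1 h3, fun h => (h2 h).trans (h4 (inClass_of_gram hn h1 h))⟩
  mul' := by
    rintro u u' v v' ⟨h1, h2⟩ ⟨h3, h4⟩
    refine ⟨(gram n).mul h1 h3, fun h => ?_⟩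
    have nil_of : ∀ {a b : FreeMonoid (Fin n)}, gram n a b → nat a = [] → nat b = [] := by
      intro a b hab ha
      rw [List.eq_nil_iff_forall_not_mem]
      intro x hx
      have hxn : x < n := by
        rw [nat, List.mem_map] at hx
        obtain ⟨y, -, rfl⟩ := hx
        exact y.2
      rw [← List.count_pos_iff, ← phi_self, ← gram_nat hab hxn hxn, ha, phi_nil] at hx
      exact lt_irrefl _ hx
    -- first step
    have step1 : Lp (nat (u * v)) ↔ Lp (nat (u' * v)) := by
      rcases List.eq_nil_or_concat' (FreeMonoid.toList v) with hv | ⟨v0, y, hv⟩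
      · have hv' : nat v = [] := by rw [nat, hv]; rfl
        rw [nat_mul, nat_mul, hv', List.append_nil, List.append_nil]
        apply h2
        rw [nat_mul, hv', List.append_nil] at h
        exact h
      · have hg : gram n (u * v) (u' * v) := (gram n).mul h1 ((gram n).refl v)
        have e : ∀ a : FreeMonoid (Fin n), nat (a * v) =
            nat (a * FreeMonoid.ofList v0) ++ [y.val] := by
          intro a
          simp [nat, hv]
        rw [h.key, (inClass_of_gram hn hg h).key, e, e, Rp_concat, Rp_concat]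
        have hg0 : gram n (u * FreeMonoid.ofList v0) (u' * FreeMonoid.ofList v0) :=
          (gram n).mul h1 ((gram n).refl _)
        rw [gram_nat hg0 (by omega) (by omega)]
    have hcl : InClass m (nat (u' * v)) :=
      inClass_of_gram hn ((gram n).mul h1 ((gram n).refl v)) h
    have step2 : Lp (nat (u' * v)) ↔ Lp (nat (u' * v')) := by
      rcases hu' : FreeMonoid.toList u' with _ | ⟨x, u0⟩
      · have hu'' : nat u' = [] := by rw [nat, hu']; rfl
        rw [nat_mul, nat_mul, hu'', List.nil_append, List.nil_append]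
        apply h4
        rw [nat_mul, hu'', List.nil_append] at hcl
        exact hcl
      · have e : ∀ a : FreeMonoid (Fin n), nat (u' * a) =
            x.val :: nat (FreeMonoid.ofList u0 * a) := by
          intro a
          simp [nat, hu']
        have hg0 : gram n (FreeMonoid.ofList u0 * v) (FreeMonoid.ofList u0 * v') :=
          (gram n).mul ((gram n).refl _) h3
        rw [e, e, Lp_cons, Lp_cons, gram_nat hg0 (by omega) (by omega)]
    exact step1.trans step2

/-- The word over `Fin n` with a given underlying list of natural numbers. -/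
def lift (n : ℕ) (hn : 5 ≤ n) (W : List ℕ) : FreeMonoid (Fin n) :=
  FreeMonoid.ofList (W.map (fun k => ⟨k % n, Nat.mod_lt _ (by omega)⟩))

lemma nat_lift (n : ℕ) (hn : 5 ≤ n) (W : List ℕ) (hW : ∀ x ∈ W, x ≤ 4) :
    nat (lift n hn W) = W := by
  rw [nat, lift, FreeMonoid.toList_ofList, List.map_map]
  conv_rhs => rw [← List.map_id W]
  apply List.map_congr_left
  intro x hx
  simp only [Function.comp_apply, id_eq]
  exact Nat.mod_eq_of_lt (by have := hW x hx; omega)

/-- The grammic congruence is not generated by pairs of words of bounded length. -/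
theorem not_bounded (n : ℕ) (hn : 5 ≤ n) (R : FreeMonoid (Fin n) → FreeMonoid (Fin n) → Prop)
    (K : ℕ) (hK : ∀ u v, R u v → (FreeMonoid.toList u).length ≤ K) : conGen R ≠ gram n := by
  intro hR
  have hle : conGen R ≤ rho n (K + 3) hn := by
    rw [Con.conGen_le]
    intro u v huv
    refine ⟨?_, fun hc => ?_⟩
    · rw [← hR]; exact Con.le_conGen u v huv
    · exfalso
      have h1 := hK u v huv
      have h2 := hc.f00
      rw [phi_self] at h2
      have h3 : (nat u).count 0 ≤ (nat u).length := List.count_le_length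
      rw [h2] at h3
      simp only [nat, List.length_map] at h3
      omega
  have hU : ∀ x ∈ wU K, x ≤ 4 := (inClass_wU K).small
  have hV := wV_small K
  have hUV : gram n (lift n hn (wU K)) (lift n hn (wV K)) := by
    apply gram_of_nat
    intro p q
    rw [nat_lift n hn _ hU, nat_lift n hn _ hV]
    exact eval_all K p q
  rw [← hR] at hUV
  have h := (hle hUV).2
  rw [nat_lift n hn _ hU, nat_lift n hn _ hV] at h
  exact not_Lp_wV K ((h (inClass_wU K)).mp (Lp_wU K))

/-- Finite presentability of a monoid. -/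
def IsFinitelyPresented (M : Type) [Monoid M] : Prop :=
  ∃ (A : Type) (R : FreeMonoid A → FreeMonoid A → Prop), Finite A ∧
    {p : FreeMonoid A × FreeMonoid A | R p.1 p.2}.Finite ∧ Nonempty (PresentedMonoid R ≃* M)

/-- If a quotient of a finitely generated free monoid is finitely presented, then its kernel
congruence is finitely generated. -/
theorem exists_finite_of_isFinitelyPresented {n : ℕ} (c : Con (FreeMonoid (Fin n)))
    (h : IsFinitelyPresented c.Quotient) :
    ∃ R : FreeMonoid (Fin n) → FreeMonoid (Fin n) → Prop,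
      {p : FreeMonoid (Fin n) × FreeMonoid (Fin n) | R p.1 p.2}.Finite ∧ conGen R = c := by
  obtain ⟨A, R0, hA, hfin, ⟨e⟩⟩ := h
  let ψ : FreeMonoid A →* c.Quotient := e.toMonoidHom.comp (PresentedMonoid.mk R0)
  have hψs : Function.Surjective ψ := e.surjective.comp PresentedMonoid.surjective_mk
  have hψ : ∀ a b, ψ a = ψ b → conGen R0 a b := by
    intro a b hab
    have h1 : PresentedMonoid.mk R0 a = PresentedMonoid.mk R0 b := e.injective hab
    exact (Con.eq (conGen R0)).mp h1
  let π : FreeMonoid (Fin n) →* c.Quotient := c.mk'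
  have hπs : Function.Surjective π := Con.mk'_surjective
  have hπ : ∀ a b, π a = π b ↔ c a b := fun a b => Con.eq c
  choose wA hwA using fun a : A => hπs (ψ (FreeMonoid.of a))
  choose vI hvI using fun i : Fin n => hψs (π (FreeMonoid.of i))
  let σ : FreeMonoid A →* FreeMonoid (Fin n) := FreeMonoid.lift wA
  let τ : FreeMonoid (Fin n) →* FreeMonoid A := FreeMonoid.lift vI
  have hσ : ∀ a, π (σ a) = ψ a := by
    have : π.comp σ = ψ := FreeMonoid.hom_eq (fun a => by simp [σ, hwA])
    intro a
    rw [← this]; rfl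
  have hτ : ∀ u, ψ (τ u) = π u := by
    have : ψ.comp τ = π := FreeMonoid.hom_eq (fun i => by simp [τ, hvI])
    intro u
    rw [← this]; rfl
  let R : FreeMonoid (Fin n) → FreeMonoid (Fin n) → Prop := fun u v =>
    (∃ r s, R0 r s ∧ σ r = u ∧ σ s = v) ∨
      (∃ i : Fin n, FreeMonoid.of i = u ∧ σ (τ (FreeMonoid.of i)) = v)
  refine ⟨R, ?_, ?_⟩
  · apply Set.Finite.subset ((hfin.image (fun p => (σ p.1, σ p.2))).union
      (Set.finite_range (fun i : Fin n => (FreeMonoid.of i, σ (τ (FreeMonoid.of i))))))
    rintro ⟨u, v⟩ (⟨r, s, hrs, h1, h2⟩ | ⟨i, h1, h2⟩)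
    · left
      simp only at h1 h2
      subst h1 h2
      exact ⟨(r, s), hrs, rfl⟩
    · right
      simp only at h1 h2
      subst h1 h2
      exact ⟨i, rfl⟩
  · apply le_antisymm
    · rw [Con.conGen_le]
      rintro u v (⟨r, s, hrs, h1, h2⟩ | ⟨i, h1, h2⟩)
      · rw [← hπ, ← h1, ← h2, hσ, hσ]
        have h3 : PresentedMonoid.mk R0 r = PresentedMonoid.mk R0 s :=
          (Con.eq (conGen R0)).mpr (Con.le_conGen r s hrs)
        change e (PresentedMonoid.mk R0 r) = e (PresentedMonoid.mk R0 s)
        rw [h3]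
      · rw [← hπ, ← h1, ← h2, hσ, hτ]
    · intro u v huv
      have h1 : ∀ u, conGen R u (σ (τ u)) := by
        intro u
        induction u using FreeMonoid.recOn with
        | one => rw [map_one τ, map_one σ]; exact (conGen R).refl 1
        | of_mul i u ih =>
          rw [map_mul τ, map_mul σ]
          exact (conGen R).mul (Con.le_conGen _ _ (Or.inr ⟨i, rfl, rfl⟩)) ih
      have h2 : conGen R0 (τ u) (τ v) := by
        apply hψ
        rw [hτ, hτ]
        exact (hπ u v).mpr huv
      have h3 : conGen R0 ≤ Con.comap σ (map_mul σ) (conGen R) := by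
        rw [Con.conGen_le]
        intro r s hrs
        exact Con.le_conGen _ _ (Or.inl ⟨r, s, hrs, rfl, rfl⟩)
      exact (conGen R).trans (h1 u) ((conGen R).trans (h3 h2) ((conGen R).symm (h1 v)))

/-- **Main result.** For every `n ≥ 5` the grammic congruence on `[n]^*` is not generated by any
set of pairs of words of bounded length, in particular by no finite set of pairs, and the grammic
monoid `G_n` is not finitely presented. Hence it is not true that `G_n` is finitely presented for
every `n ≥ 1`. -/
theorem result :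
    (∀ n : ℕ, 5 ≤ n → ¬ IsFinitelyPresented (gram n).Quotient) ∧
    (∀ n : ℕ, 5 ≤ n → ¬ ∃ R : FreeMonoid (Fin n) → FreeMonoid (Fin n) → Prop,
      {p : FreeMonoid (Fin n) × FreeMonoid (Fin n) | R p.1 p.2}.Finite ∧ conGen R = gram n) ∧
    (∀ n : ℕ, 5 ≤ n → ∀ (K : ℕ) (R : FreeMonoid (Fin n) → FreeMonoid (Fin n) → Prop),
      (∀ u v, R u v → u.length ≤ K) → conGen R ≠ gram n) ∧
    ¬ ∀ n : ℕ, 1 ≤ n → IsFinitelyPresented (gram n).Quotient := by
  have h3 : ∀ n : ℕ, 5 ≤ n → ∀ (K : ℕ) (R : FreeMonoid (Fin n) → FreeMonoid (Fin n) → Prop),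
      (∀ u v, R u v → u.length ≤ K) → conGen R ≠ gram n :=
    fun n hn K R hK => not_bounded n hn R K hK
  have h2 : ∀ n : ℕ, 5 ≤ n → ¬ ∃ R : FreeMonoid (Fin n) → FreeMonoid (Fin n) → Prop,
      {p : FreeMonoid (Fin n) × FreeMonoid (Fin n) | R p.1 p.2}.Finite ∧ conGen R = gram n := by
    rintro n hn ⟨R, hfin, hR⟩
    obtain ⟨K, hK⟩ := (hfin.image (fun p => p.1.length)).bddAbove
    exact h3 n hn K R (fun u v huv => hK ⟨(u, v), huv, rfl⟩) hR
  have h1 : ∀ n : ℕ, 5 ≤ n → ¬ IsFinitelyPresented (gram n).Quotient :=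
    fun n hn h => h2 n hn (exists_finite_of_isFinitelyPresented _ h)
  exact ⟨h1, h2, h3, fun h => h1 5 le_rfl (h 5 (by norm_num))⟩

end Pool.Agent.Results.MP_be768e_al.NotFinitelyPresented
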